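import Pool.Agent.N328.CD.Defs
import Pool.Agent.H185C.T10

/-!
# CD/TWO (project of helper328, helper247): two disjoint joins from the cut condition
-/

set_option autoImplicit false

namespace Pool.Agent.N247.CD

open Finset Pool.Agent.H160R2.HF Pool.Agent.H160R2.HF.OrGraph Pool.Agent.H884R2.HFP
open Pool.Agent.N328.LF Pool.Agent.N328.CD
open Pool.Agent.H185C (Conn ff_of_conn)

variable {V E : Type} [Fintype V] [Fintype E] [DecidableEq V] [DecidableEq E]

theorem card_eq_sum (A : Finset E) : ((A.card : ℕ) : ℤ) = ∑ e, if e ∈ A then (1 : ℤ) else 0 := by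
  simp only [Finset.sum_boole]
  congr 2
  ext e; simp

/-- CD/TWO: two disjoint joins from the cut condition (Hoffman). -/
theorem two
    (htj : ∀ (D : Finset E) (G : OrGraph V E) (T : Finset V),
      (∀ X : Finset V, G.cut X ∩ D = ∅ → Even (X ∩ T).card) →
      ∃ K ⊆ D, ∀ v, (Odd (G.deg K v) ↔ v ∈ T))
    (G : OrGraph V E) (hc : G.Cubic) (hl : ∀ e, G.t e ≠ G.h e)
    (hG : ∀ X : Finset V, X.Nonempty → Xᶜ.Nonempty → (G.cut X).Nonempty)
    (F : Finset E) (hF : G.IsTwoFactor F) (J : Finset E) (hJ : J ∩ F = ∅)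
    (hcut : ∀ X : Finset V, X.Nonempty → Xᶜ.Nonempty → Conn G X → Conn G Xᶜ →
      3 * (G.cut X ∩ J).card ≤ (G.cut X).card) :
    ∃ K₁ K₂ : Finset E, K₁ ∩ K₂ = ∅ ∧ K₁ ∩ J = ∅ ∧ K₂ ∩ J = ∅ ∧
      (∀ v, (Odd (G.deg K₁ v) ↔ v ∈ ends G J)) ∧ ∀ v, (Odd (G.deg K₂ v) ↔ v ∈ ends G J) := by
  classical
  obtain ⟨g, hg1, hg2⟩ := hoffman G.t G.h
    (fun e => if e ∈ J then 2 else -1) (fun e => if e ∈ J then 2 else 1)
    (fun _ => 0) (fun e => by split_ifs <;> simp) (by simp) (by
      refine ff_of_conn G _ _ hG (fun X hXne hXcne hXc hXcc => ?_)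
      have h1 := hcut X hXne hXcne hXc hXcc
      have h2 : ((G.cut X).card : ℤ) - 3 * (G.cut X ∩ J).card ≤ ff G.t G.h
          (fun e => if e ∈ J then 2 else -1) (fun e => if e ∈ J then 2 else 1)
          (fun _ => 0) X := by
        unfold ff
        rw [card_eq_sum, card_eq_sum, Finset.mul_sum, ← Finset.sum_sub_distrib,
          Finset.sum_const_zero, zero_add]
        refine Finset.sum_le_sum fun e _ => ?_
        unfold ce
        by_cases he : e ∈ J <;> by_cases a : G.t e ∈ X <;> by_cases b : G.h e ∈ X <;>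
          simp [a, b, he, cut]
      omega)
  have hgJ : ∀ e ∈ J, g e = 2 := by
    intro e he
    have := hg1 e
    simp only [if_pos he] at this
    omega
  have hgn : ∀ e, e ∉ J → g e = 0 ∨ g e = 1 ∨ g e = -1 := by
    intro e he
    have := hg1 e
    simp only [if_neg he] at this
    omega
  set D : Finset E := univ.filter (fun e => e ∉ J ∧ g e ≠ 0) with hD
  have hmemD : ∀ e, e ∈ D ↔ e ∉ J ∧ g e ≠ 0 := by
    intro e; rw [hD]; simp
  have hnet : ∀ X : Finset V,
      ∑ e, ((if G.t e ∈ X then g e else 0) - (if G.h e ∈ X then g e else 0)) = 0 := by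
    intro X
    rw [← net_sum]
    exact Finset.sum_eq_zero fun v _ => hg2 v
  have hmemcut : ∀ (X : Finset V) e, e ∈ G.cut X ↔ ¬ (G.t e ∈ X ↔ G.h e ∈ X) := by
    intro X e; simp [cut]
  -- parity of the cuts of `D`
  have hpar : ∀ X, Even (G.cut X ∩ D).card := by
    intro X
    have h1 : (2 : ℤ) ∣ ((G.cut X ∩ D).card : ℤ) -
        ∑ e, ((if G.t e ∈ X then g e else 0) - (if G.h e ∈ X then g e else 0)) := by
      rw [card_eq_sum, ← Finset.sum_sub_distrib]
      refine Finset.dvd_sum fun e _ => ?_
      simp only [Finset.mem_inter, hmemcut, hmemD]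
      by_cases he : e ∈ J
      · have h := hgJ e he
        by_cases a : G.t e ∈ X <;> by_cases b : G.h e ∈ X <;> simp [a, b, he, h]
      · rcases hgn e he with h | h | h <;>
        by_cases a : G.t e ∈ X <;> by_cases b : G.h e ∈ X <;> simp [a, b, he, h]
    rw [hnet X, sub_zero] at h1
    rw [even_iff_two_dvd]
    exact_mod_cast h1
  have hdegD : ∀ v, Even (G.deg D v) := by
    intro v
    have h1 := G.handshake D {v}
    rw [Finset.sum_singleton] at h1
    rw [h1]
    exact (even_two_mul _).add (hpar {v})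
  -- the matching `J`
  have hJF : J ⊆ Fᶜ := by
    intro e he
    rw [Finset.mem_compl]
    intro heF
    have : e ∈ J ∩ F := Finset.mem_inter.2 ⟨he, heF⟩
    rw [hJ] at this
    simp at this
  have hdegJ : ∀ v, G.deg J v = if v ∈ ends G J then 1 else 0 := by
    intro v
    have h1 : G.deg J v ≤ 1 := by
      rw [← deg_compl G hc F hF v]
      unfold deg
      exact add_le_add (card_le_card (filter_subset_filter _ hJF))
        (card_le_card (filter_subset_filter _ hJF))
    have h2 : v ∈ ends G J ↔ 0 < G.deg J v := by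
      unfold ends deg
      rw [Finset.mem_filter, add_pos_iff, Finset.card_pos, Finset.card_pos]
      constructor
      · rintro ⟨_, j, hj, h | h⟩
        · exact Or.inl ⟨j, Finset.mem_filter.2 ⟨hj, h⟩⟩
        · exact Or.inr ⟨j, Finset.mem_filter.2 ⟨hj, h⟩⟩
      · rintro (⟨j, hj⟩ | ⟨j, hj⟩)
        · rw [Finset.mem_filter] at hj
          exact ⟨mem_univ _, j, hj.1, Or.inl hj.2⟩
        · rw [Finset.mem_filter] at hj
          exact ⟨mem_univ _, j, hj.1, Or.inr hj.2⟩
    by_cases h : v ∈ ends G J
    · rw [if_pos h]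
      have := h2.1 h
      omega
    · rw [if_neg h]
      have := mt h2.2 h
      omega
  obtain ⟨K, hKD, hK⟩ := htj D G (ends G J) (by
    intro X hX
    have h1 : (4 : ℤ) ∣ 2 * ((G.cut X ∩ J).card : ℤ) -
        ∑ e, ((if G.t e ∈ X then g e else 0) - (if G.h e ∈ X then g e else 0)) := by
      rw [card_eq_sum, Finset.mul_sum, ← Finset.sum_sub_distrib]
      refine Finset.dvd_sum fun e _ => ?_
      simp only [Finset.mem_inter, hmemcut]
      by_cases he : e ∈ J
      · have h := hgJ e he
        by_cases a : G.t e ∈ X <;> by_cases b : G.h e ∈ X <;> simp [a, b, he, h]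
      · by_cases hcX : e ∈ G.cut X
        · have h0 : g e = 0 := by
            by_contra hne
            have : e ∈ G.cut X ∩ D := Finset.mem_inter.2 ⟨hcX, (hmemD e).2 ⟨he, hne⟩⟩
            rw [hX] at this
            simp at this
          rw [h0]
          simp [he]
        · rw [hmemcut, not_not] at hcX
          by_cases a : G.t e ∈ X
          · have b := hcX.1 a
            simp [a, b, he]
          · have b : G.h e ∉ X := fun b => a (hcX.2 b)
            simp [a, b, he]
    rw [hnet X, sub_zero] at h1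
    have h2 : Even (G.cut X ∩ J).card := by
      rw [even_iff_two_dvd]
      have h3 : (2 : ℤ) ∣ ((G.cut X ∩ J).card : ℤ) := by omega
      exact_mod_cast h3
    have h3 := G.handshake J X
    have h4 : ∑ v ∈ X, G.deg J v = (X ∩ ends G J).card := by
      rw [Finset.sum_congr rfl fun v _ => hdegJ v, ← Finset.sum_filter, Finset.sum_const,
        smul_eq_mul, mul_one, Finset.filter_mem_eq_inter]
    rw [← h4, h3]
    exact (even_two_mul _).add h2)
  have hKJ : ∀ A : Finset E, A ⊆ D → A ∩ J = ∅ := by
    intro A hA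
    rw [Finset.eq_empty_iff_forall_notMem]
    intro e he
    rw [Finset.mem_inter] at he
    exact ((hmemD e).1 (hA he.1)).1 he.2
  refine ⟨K, D \ K, ?_, hKJ K hKD, hKJ _ Finset.sdiff_subset, hK, ?_⟩
  · exact Finset.inter_sdiff_self K D
  · intro v
    rw [← hK v]
    have h1 : G.deg D v = G.deg K v + G.deg (D \ K) v := by
      unfold deg
      have e1 : ∀ (p : E → Prop) [DecidablePred p],
          (D.filter p).card = (K.filter p).card + ((D \ K).filter p).card := by
        intro p _
        rw [← Finset.card_union_of_disjoint]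
        · congr 1
          ext e
          simp only [Finset.mem_filter, Finset.mem_union, Finset.mem_sdiff]
          have := @hKD e
          tauto
        · rw [Finset.disjoint_left]
          intro e he he'
          rw [Finset.mem_filter] at he he'
          exact (Finset.mem_sdiff.1 he'.1).2 he.1
      rw [e1, e1]
      ring
    have h2 := hdegD v
    rw [h1] at h2
    rw [Nat.even_add] at h2
    rw [← Nat.not_even_iff_odd, ← Nat.not_even_iff_odd, h2]

end Pool.Agent.N247.CD
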